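import Pool.Agent.N493.NRNu2
import Pool.Agent.TH456.TM.E
import Pool.Agent.H43R2.Cplx.EMeas

set_option autoImplicit false

/-!
# Near relations between `1`, `e` and any real number at all scales of an interval

Let `ξ` be a real number and `w > (3 + √5) / 2 = 2.618...`. If at every scale `X ∈ [Y, Z]` there is
a nonzero integer vector `(a, b, c)` with `|b|, |c| ≤ X` and `|a + b e + c ξ| ≤ X ^ (-w)`, then a
single nonzero vector of height `≤ Y ^ κ` has precision `Z ^ (-w)`. The constants do not depend on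
`ξ`. So `1, e, π` are linearly dependent over `ℚ` if and only if there are near relations of
precision `X ^ (-w)` between them at all large scales `X`.
-/

namespace Pool.Agent.Results.MP_58e087_nt.NearRelationsAllScales

open Filter Topology Pool.Agent.N493 Pool.Agent.N493.NR

/-- `a + b e + c ξ` for `v = (a, b, c)` -/
noncomputable def value (ξ : ℝ) (v : ℤ × ℤ × ℤ) : ℝ := v.1 + v.2.1 * Real.exp 1 + v.2.2 * ξ

/-- the height `max (|b|, |c|)` of `v = (a, b, c)` -/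
def height (v : ℤ × ℤ × ℤ) : ℕ := max v.2.1.natAbs v.2.2.natAbs

/-- there is a nonzero `v = (a, b, c)` with `|b|, |c| ≤ H` and `|a + b e + c ξ| ≤ δ` -/
def Near (ξ H δ : ℝ) : Prop := ∃ v : ℤ × ℤ × ℤ, v ≠ 0 ∧ (height v : ℝ) ≤ H ∧ |value ξ v| ≤ δ

theorem dependent_iff (ξ : ℝ) : (¬ LinearIndependent ℚ ![(1 : ℝ), Real.exp 1, ξ]) ↔
    ∃ v : ℤ × ℤ × ℤ, v ≠ 0 ∧ value ξ v = 0 := by
  rw [Fintype.not_linearIndependent_iff]
  constructor
  · rintro ⟨g, hg, i, hi⟩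
    rw [Fin.sum_univ_three] at hg
    simp only [Matrix.cons_val_zero, Matrix.cons_val_one, Matrix.cons_val, Rat.smul_def] at hg
    have e : ∀ k : Fin 3, ((g k).den : ℝ) * (g k : ℝ) = (g k).num := by
      intro k
      have := Rat.den_mul_eq_num (g k)
      exact_mod_cast congrArg (fun z : ℚ => (z : ℝ)) this
    have d : ∀ k : Fin 3, ((g k).den : ℤ) ≠ 0 := fun k => by exact_mod_cast (g k).den_nz
    refine ⟨((g 0).num * (g 1).den * (g 2).den, (g 1).num * (g 0).den * (g 2).den,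
      (g 2).num * (g 0).den * (g 1).den), ?_, ?_⟩
    · intro h0
      rw [Prod.ext_iff, Prod.ext_iff] at h0
      obtain ⟨h1, h2, h3⟩ := h0
      simp only [Prod.fst_zero, Prod.snd_zero] at h1 h2 h3
      have hn : (g i).num ≠ 0 := Rat.num_ne_zero.2 hi
      fin_cases i
      · exact hn (by simpa [d 1, d 2] using h1)
      · exact hn (by simpa [d 0, d 2] using h2)
      · exact hn (by simpa [d 0, d 1] using h3)
    · unfold value
      push_cast
      rw [← e 0, ← e 1, ← e 2]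
      linear_combination ((g 0).den : ℝ) * ((g 1).den : ℝ) * ((g 2).den : ℝ) * hg
  · rintro ⟨v, hv0, hv⟩
    refine ⟨![(v.1 : ℚ), (v.2.1 : ℚ), (v.2.2 : ℚ)], ?_, ?_⟩
    · rw [Fin.sum_univ_three]
      simp only [Matrix.cons_val_zero, Matrix.cons_val_one, Matrix.cons_val, Rat.smul_def]
      push_cast
      unfold value at hv
      linarith
    · by_contra hcon
      push Not at hcon
      apply hv0
      have h0 := hcon 0
      have h1 := hcon 1
      have h2 := hcon 2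
      simp only [Matrix.cons_val_zero, Matrix.cons_val_one, Matrix.cons_val] at h0 h1 h2
      refine Prod.ext ?_ (Prod.ext ?_ ?_)
      · exact_mod_cast h0
      · exact_mod_cast h1
      · exact_mod_cast h2

/-- the measure of irrationality of `e` -/
theorem nu_e (ν : ℝ) (hν : 1 < ν) : ∃ c : ℝ, 0 < c ∧ NRNu.Nu (Real.exp 1) ν c := by
  obtain ⟨c, hc, h⟩ := Pool.Agent.H43R2.Cplx.EMeas.measure (ν - 1) (by linarith)
  refine ⟨c, hc, fun Q hQ m => ?_⟩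
  have h1 := h Q hQ m
  have e : (1 : ℝ) + (ν - 1) = ν := by ring
  rwa [e] at h1

theorem exists_nu (w κ : ℝ) (hw : (3 + Real.sqrt 5) / 2 < w) (hκ : 1 < κ * (w - 2)) :
    ∃ ν : ℝ, 1 < ν ∧ 1 + ν < w ∧ ν < (w - 1) * (w - 1 - ν) ∧ ν < κ * (w - 1 - ν) := by
  have h5 : Real.sqrt 5 ^ 2 = 5 := Real.sq_sqrt (by norm_num)
  have h52 : 2 < Real.sqrt 5 := by
    rw [Real.lt_sqrt (by norm_num)]; norm_num
  have hw2 : 1 < (w - 1) * (w - 2) := by nlinarith
  have c1 : Tendsto (fun ν : ℝ => (w - 1) * (w - 1 - ν) - ν) (𝓝 1) (𝓝 ((w - 1) * (w - 1 - 1) - 1)) :=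
    ((tendsto_const_nhds.sub tendsto_id).const_mul _).sub tendsto_id
  have c2 : Tendsto (fun ν : ℝ => κ * (w - 1 - ν) - ν) (𝓝 1) (𝓝 (κ * (w - 1 - 1) - 1)) :=
    ((tendsto_const_nhds.sub tendsto_id).const_mul _).sub tendsto_id
  have e1 := c1.eventually_const_lt (show 0 < (w - 1) * (w - 1 - 1) - 1 by linarith)
  have e2 := c2.eventually_const_lt (show 0 < κ * (w - 1 - 1) - 1 by
    have e : w - 1 - 1 = w - 2 := by ring
    rw [e]; linarith)
  have e3 : ∀ᶠ ν : ℝ in 𝓝 1, ν < w - 1 := eventually_lt_nhds (by linarith)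
  obtain ⟨ν, ⟨⟨h1, h2⟩, h3⟩, h4⟩ := (((e1.and e2).and e3).filter_mono nhdsWithin_le_nhds |>.and
      (self_mem_nhdsWithin : ∀ᶠ ν : ℝ in 𝓝[>] 1, ν ∈ Set.Ioi 1)).exists
  exact ⟨ν, h4, by linarith, by linarith, by linarith⟩

/-- Let `w > (3 + √5) / 2`, `κ ≥ 1` and `κ (w - 2) > 1`. (1) For large `Y`, all real `ξ` and
`Z ≥ Y`: near relations of precision `X ^ (-w)` between `1, e, ξ` at all scales `X ∈ [Y, Z]` give
one near relation of height `≤ Y ^ κ` and precision `Z ^ (-w)`; near relations at all scales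
`X ≥ Y` give an exact relation of height `≤ Y ^ κ`. (2) `1, e, ξ` (for instance `ξ = π`) are
linearly dependent over `ℚ` if and only if there are near relations of precision `X ^ (-w)` at all
large scales `X`. (3) For `j ≠ k` every interval `[Y, Y ^ M]`, `Y` large, contains a scale with no
near relation for `ξ = π ^ j` or none for `ξ = π ^ k`. -/
theorem result :
    (∀ w κ : ℝ, (3 + Real.sqrt 5) / 2 < w → 1 ≤ κ → 1 < κ * (w - 2) →
      ∃ Y₀ : ℝ, 1 ≤ Y₀ ∧ ∀ ξ Y : ℝ, Y₀ ≤ Y →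
        (∀ Z : ℝ, Y ≤ Z → (∀ X : ℝ, Y ≤ X → X ≤ Z → Near ξ X (X ^ (-w))) →
          Near ξ (Y ^ κ) (Z ^ (-w))) ∧
        ((∀ X : ℝ, Y ≤ X → Near ξ X (X ^ (-w))) → Near ξ (Y ^ κ) 0)) ∧
    (∀ w : ℝ, (3 + Real.sqrt 5) / 2 < w → ∀ ξ : ℝ,
      (¬ LinearIndependent ℚ ![(1 : ℝ), Real.exp 1, ξ]) ↔
        ∃ Y : ℝ, ∀ X : ℝ, Y ≤ X → Near ξ X (X ^ (-w))) ∧
    (∀ w : ℝ, (3 + Real.sqrt 5) / 2 < w → ∀ j k : ℕ, 1 ≤ j → 1 ≤ k → j ≠ k →
      ∃ M Y₁ : ℝ, ∀ Y : ℝ, Y₁ ≤ Y → ∃ X : ℝ, Y ≤ X ∧ X ≤ Y ^ M ∧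
        (¬ Near (Real.pi ^ j) X (X ^ (-w)) ∨ ¬ Near (Real.pi ^ k) X (X ^ (-w)))) := by
  have hfix : ∀ w : ℝ, (3 + Real.sqrt 5) / 2 < w → ∃ κ : ℝ, 1 ≤ κ ∧ 1 < κ * (w - 2) := by
    intro w hw
    have h52 : 2 < Real.sqrt 5 := by
      rw [Real.lt_sqrt (by norm_num)]; norm_num
    have h2 : 0 < w - 2 := by linarith
    refine ⟨1 + 1 / (w - 2), ?_, ?_⟩
    · have : 0 < 1 / (w - 2) := by positivity
      linarith
    · rw [add_mul, one_div, inv_mul_cancel₀ h2.ne']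
      linarith
  refine ⟨?_, ?_, ?_⟩
  · intro w κ hw hκ1 hκ
    obtain ⟨ν, h1, h2, h3, h4⟩ := exists_nu w κ hw hκ
    obtain ⟨c, hc, hNu⟩ := nu_e ν h1
    have hν0 : 0 < ν := by linarith
    obtain ⟨Y1, hY1, k1⟩ := NRNu.local_nu (Real.exp 1) ν c hν0 hc hNu w κ h2 h3 hκ1 h4
    obtain ⟨Y2, hY2, k2⟩ := NRNu.exact_nu (Real.exp 1) ν c hν0 hc hNu w κ h2 h3 hκ1 h4
    refine ⟨max Y1 Y2, hY1.trans (le_max_left _ _), fun ξ Y hY => ⟨fun Z hZ hU => ?_, fun hU => ?_⟩⟩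
    · exact k1 ξ Y Z ((le_max_left _ _).trans hY) hZ hU
    · exact k2 ξ Y ((le_max_right _ _).trans hY) hU
  · intro w hw ξ
    rw [dependent_iff]
    constructor
    · rintro ⟨v, hv0, hv⟩
      refine ⟨height v, fun X hX => ⟨v, hv0, hX, ?_⟩⟩
      rw [hv, abs_zero]
      have : (0 : ℝ) ≤ X := (Nat.cast_nonneg _).trans hX
      positivity
    · rintro ⟨Y, hU⟩
      obtain ⟨κ, hκ1, hκ⟩ := hfix w hw
      obtain ⟨ν, h1, h2, h3, h4⟩ := exists_nu w κ hw hκ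
      obtain ⟨c, hc, hNu⟩ := nu_e ν h1
      obtain ⟨Y0, hY0, h⟩ := NRNu.exact_nu (Real.exp 1) ν c (by linarith) hc hNu w κ h2 h3 hκ1 h4
      obtain ⟨v, hv0, -, hv⟩ := h ξ (max Y0 Y) (le_max_left _ _)
        fun X hX => hU X ((le_max_right _ _).trans hX)
      exact ⟨v, hv0, abs_eq_zero.1 (le_antisymm hv (abs_nonneg _))⟩
  · intro w hw j k hj hk hjk
    obtain ⟨κ, hκ1, hκ⟩ := hfix w hw
    obtain ⟨ν, h1, h2, h3, h4⟩ := exists_nu w κ hw hκ
    obtain ⟨c, hc, hNu⟩ := nu_e ν h1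
    have hν0 : 0 < ν := by linarith
    obtain ⟨m, c', hm, hc', hS⟩ := NRNu.sep_pi (Real.exp 1) ν c hν0 hc hNu
      Pool.Agent.TH456.TM.measT_pi j k hj hk hjk
    obtain ⟨M, hM⟩ : ∃ M : ℝ, M = m * κ + 1 := ⟨_, rfl⟩
    have hmκ : 0 < m * κ := by positivity
    refine ⟨M, ?_⟩
    have hw1 : 1 < w := by linarith
    exact NRNu.gap (Real.exp 1) ν c hν0 hc hNu w κ h2 h3 hκ1 h4 (Real.pi ^ j) (Real.pi ^ k) m c' hc'
      hS M (by linarith) (by rw [hM]; nlinarith)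

end Pool.Agent.Results.MP_58e087_nt.NearRelationsAllScales
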